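import Mathlib
import Pool.Agent.Lib.MP_1fca17_co.Geo
import Pool.Agent.Lib.MP_1fca17_co.Count
import Pool.Agent.Lib.MP_1fca17_co.Num
import Pool.Agent.Lib.MP_1fca17_co.LX
import Pool.Agent.Lib.MP_1fca17_co.LL
import Pool.Agent.Lib.MP_1fca17_co.Level
import Pool.Agent.Lib.MP_1fca17_co.LevelFinal

/-!
# MP_1fca17_co : levelled k-planar graphs are O(√k)-quasiplanar

For every `k ≥ 1`, every graph with a k-planar straight-line drawing on parallel levels, every edge
joining two consecutive levels, has a (different) straight-line drawing in general position with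
at most `34 √k` pairwise crossing edges.
-/

namespace Pool.Agent.Results.MP_1fca17_co.LevelledKPlanarSqrt

/-- `G` is levelled k-planar: the vertices can be placed at distinct points `(p v, L v)` with
integer coordinates such that every edge joins two consecutive levels and, in the straight-line
drawing, every edge `uv` (`u` lower, `v` upper) is crossed by at most `k` edges
(a crossing edge is written as the pair (lower end, upper end)). -/
def LevelledKPlanar {V : Type} (k : ℕ) (G : SimpleGraph V) : Prop :=
  ∃ L p : V → ℕ, (∀ u v : V, L u = L v → p u = p v → u = v) ∧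
    (∀ u v : V, G.Adj u v → L v = L u + 1 ∨ L u = L v + 1) ∧
    ∀ u v : V, G.Adj u v → L v = L u + 1 →
      Set.ncard {e : V × V | G.Adj e.1 e.2 ∧ L e.1 = L u ∧ L e.2 = L v ∧
        ((p e.1 < p u ∧ p v < p e.2) ∨ (p u < p e.1 ∧ p e.2 < p v))} ≤ k

/-- The open segment that represents the edge `e` in the straight-line drawing in which every
vertex `v` is the point `P v`. -/
def edgeSeg {V : Type} (P : V → ℝ × ℝ) (e : Sym2 V) : Set (ℝ × ℝ) :=
  {z | ∃ u v : V, e = s(u, v) ∧ z ∈ openSegment ℝ (P u) (P v)}

/-- The straight-line drawing of `G` with the vertices `P v` is in general position: distinct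
points, no three of them on a line, no three edges with a common crossing point.  In particular
it is a simple drawing. -/
structure GenPosDrawing {V : Type} (G : SimpleGraph V) (P : V → ℝ × ℝ) : Prop where
  inj : Function.Injective P
  col : ∀ u v w : V, u ≠ v → u ≠ w → v ≠ w → ¬ Collinear ℝ {P u, P v, P w}
  conc : ∀ e ∈ G.edgeSet, ∀ f ∈ G.edgeSet, ∀ g ∈ G.edgeSet, e ≠ f → e ≠ g → f ≠ g →
    edgeSeg P e ∩ edgeSeg P f ∩ edgeSeg P g = ∅

open Pool.Agent.Lib.MP_1fca17_co in
/-- Every levelled k-planar graph (`k ≥ 1`) has a straight-line drawing in general position in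
which every set of pairwise crossing edges has at most `34 √k` elements. -/
theorem result (V : Type) [Fintype V] (k : ℕ) (hk : 1 ≤ k) (G : SimpleGraph V)
    (hG : LevelledKPlanar k G) :
    ∃ P : V → ℝ × ℝ, GenPosDrawing G P ∧ ∀ F : Finset (Sym2 V), (∀ e ∈ F, e ∈ G.edgeSet) →
      (∀ e ∈ F, ∀ f ∈ F, e ≠ f → (edgeSeg P e ∩ edgeSeg P f).Nonempty) →
      (F.card : ℝ) ≤ 34 * Real.sqrt k := by
  obtain ⟨P, hP, hF⟩ := level_final stGeo (stLevel stLX (stLL stCount stNum2)) V k hk G hG
  exact ⟨P, ⟨hP.inj, hP.col, hP.conc⟩, hF⟩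

end Pool.Agent.Results.MP_1fca17_co.LevelledKPlanarSqrt
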