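import Mathlib
import Pool.Agent.Lib.MP_1fca17_co.Geo
import Pool.Agent.Lib.MP_1fca17_co.Count
import Pool.Agent.Lib.MP_1fca17_co.Num
import Pool.Agent.Lib.MP_1fca17_co.S1
import Pool.Agent.Lib.MP_1fca17_co.S2
import Pool.Agent.Lib.MP_1fca17_co.K12
import Pool.Agent.Lib.MP_1fca17_co.K3
import Pool.Agent.Lib.MP_1fca17_co.B
import Pool.Agent.Lib.MP_1fca17_co.T
import Pool.Agent.Lib.MP_1fca17_co.H
import Pool.Agent.Lib.MP_1fca17_co.C
import Pool.Agent.Lib.MP_1fca17_co.D
import Pool.Agent.Lib.MP_1fca17_co.Outer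
import Pool.Agent.Lib.MP_1fca17_co.OuterFinal

/-!
# MP_1fca17_co : outer k-planar graphs are O(√k)-quasiplanar

For every `k ≥ 1`, every outer k-planar graph has a straight-line drawing in general position
(in particular a simple drawing) with at most `120 √k` pairwise crossing edges.
-/

namespace Pool.Agent.Results.MP_1fca17_co.OuterKPlanarSqrt

/-- `G` is outer k-planar: there is an order `c` of the vertices on a circle (cut open at a point)
such that, when the edges are drawn as straight chords, every edge `uv` is crossed by at most `k`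
edges.  A crossing edge is written as the pair (endpoint strictly between `u` and `v`, endpoint
outside). -/
def OuterKPlanar {V : Type} (k : ℕ) (G : SimpleGraph V) : Prop :=
  ∃ c : V → ℕ, Function.Injective c ∧ ∀ u v : V, G.Adj u v → c u < c v →
    Set.ncard {e : V × V | G.Adj e.1 e.2 ∧ c u < c e.1 ∧ c e.1 < c v ∧
      (c e.2 < c u ∨ c v < c e.2)} ≤ k

/-- The open segment that represents the edge `e` in the straight-line drawing in which every
vertex `v` is the point `P v`. -/
def edgeSeg {V : Type} (P : V → ℝ × ℝ) (e : Sym2 V) : Set (ℝ × ℝ) :=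
  {z | ∃ u v : V, e = s(u, v) ∧ z ∈ openSegment ℝ (P u) (P v)}

/-- The straight-line drawing of `G` with the vertices `P v` is in general position: distinct
points, no three of them on a line, no three edges with a common crossing point.  In particular
it is a simple drawing. -/
structure GenPosDrawing {V : Type} (G : SimpleGraph V) (P : V → ℝ × ℝ) : Prop where
  inj : Function.Injective P
  col : ∀ u v w : V, u ≠ v → u ≠ w → v ≠ w → ¬ Collinear ℝ {P u, P v, P w}
  conc : ∀ e ∈ G.edgeSet, ∀ f ∈ G.edgeSet, ∀ g ∈ G.edgeSet, e ≠ f → e ≠ g → f ≠ g →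
    edgeSeg P e ∩ edgeSeg P f ∩ edgeSeg P g = ∅

open Pool.Agent.Lib.MP_1fca17_co in
/-- Every outer k-planar graph (`k ≥ 1`) has a straight-line drawing in general position in which
every set of pairwise crossing edges has at most `120 √k` elements. -/
theorem result (V : Type) [Fintype V] (k : ℕ) (hk : 1 ≤ k) (G : SimpleGraph V)
    (hG : OuterKPlanar k G) :
    ∃ P : V → ℝ × ℝ, GenPosDrawing G P ∧ ∀ F : Finset (Sym2 V), (∀ e ∈ F, e ∈ G.edgeSet) →
      (∀ e ∈ F, ∀ f ∈ F, e ≠ f → (edgeSeg P e ∩ edgeSeg P f).Nonempty) →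
      (F.card : ℝ) ≤ 120 * Real.sqrt k := by
  have hT : StT := stT stS1 (stB stS1 stCount stNum1 (stK1 stS1 (stS2 stS1))
    (stK3 stS1 (stS2 stS1)))
  have hO : StOuter := stOuter hT (stH stS1) (stC stS1 (stK2 stS1)) (stD stS1)
  obtain ⟨P, hP, hF⟩ := outer_final stGeo hO V k hk G hG
  exact ⟨P, ⟨hP.inj, hP.col, hP.conc⟩, hF⟩

end Pool.Agent.Results.MP_1fca17_co.OuterKPlanarSqrt
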