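import Mathlib
import Pool.Agent.Lib.MP_1fca17_co.F.Full
import Pool.Agent.Lib.MP_1fca17_co.Top.Glue72
import Pool.Agent.Lib.MP_1fca17_co.Top.Real40
import Pool.Agent.Lib.MP_1fca17_co.Top.Bridge32
import Pool.Agent.Lib.MP_1fca17_co.Top.Ball56
import Pool.Agent.Lib.MP_1fca17_co.Top.Cell
import Pool.Agent.Lib.MP_1fca17_co.Top.GridMap99
import Pool.Agent.Lib.MP_1fca17_co.Top.Quot
import Pool.Agent.Lib.MP_1fca17_co.Top.Sort
import Pool.Agent.Lib.MP_1fca17_co.Top.Split

/-!
# MP_1fca17_co, Q1 : there is a sublinear function `f` such that every k-planar graph is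
`f(k)`-quasiplanar

Drawings are simple drawings in the plane with Jordan arcs as edges, as in the problem.
-/

namespace Pool.Agent.Results.MP_1fca17_co.SublinearQuasiplanarity

open Set Filter

/-- `A` is a Jordan arc with the endpoints `p` and `q`. -/
def IsArc (p q : ℝ × ℝ) (A : Set (ℝ × ℝ)) : Prop :=
  ∃ γ : ℝ → ℝ × ℝ, ContinuousOn γ (Icc 0 1) ∧ InjOn γ (Icc 0 1) ∧ γ 0 = p ∧ γ 1 = q ∧
    γ '' Icc 0 1 = A

/-- `z` is a proper crossing of `A` and `B`: a homeomorphism of an open set around `z` onto an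
open set around the origin carries `A` to the vertical and `B` to the horizontal axis. -/
def ProperCrossing (A B : Set (ℝ × ℝ)) (z : ℝ × ℝ) : Prop :=
  ∃ h : OpenPartialHomeomorph (ℝ × ℝ) (ℝ × ℝ), z ∈ h.source ∧ h z = 0 ∧
    ∀ w ∈ h.source, (w ∈ A ↔ (h w).1 = 0) ∧ (w ∈ B ↔ (h w).2 = 0)

/-- A simple drawing of `G`: the vertices are distinct points of the plane, every edge is a Jordan
arc that joins its two endpoints and passes through no other vertex, two edges have at most one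
common point, which is a common endpoint or a proper crossing, and no three edges pass through one
crossing point. -/
structure SimpleDrawing {V : Type} (G : SimpleGraph V) where
  pos : V → ℝ × ℝ
  arc : Sym2 V → Set (ℝ × ℝ)
  pos_inj : Function.Injective pos
  isArc : ∀ u v, G.Adj u v → IsArc (pos u) (pos v) (arc s(u, v))
  avoid : ∀ u v w, G.Adj u v → pos w ∈ arc s(u, v) → w = u ∨ w = v
  once : ∀ e ∈ G.edgeSet, ∀ f ∈ G.edgeSet, e ≠ f → (arc e ∩ arc f).Subsingleton
  proper : ∀ e ∈ G.edgeSet, ∀ f ∈ G.edgeSet, e ≠ f → ∀ z ∈ arc e ∩ arc f,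
    (∃ v, v ∈ e ∧ v ∈ f ∧ z = pos v) ∨ ProperCrossing (arc e) (arc f) z
  three : ∀ e ∈ G.edgeSet, ∀ f ∈ G.edgeSet, ∀ g ∈ G.edgeSet, e ≠ f → e ≠ g → f ≠ g →
    ∀ z ∈ arc e ∩ arc f ∩ arc g, z ∈ range pos

/-- The edges `e` and `f` cross: they have a common point that is not a vertex. -/
def SimpleDrawing.Crosses {V : Type} {G : SimpleGraph V} (D : SimpleDrawing G)
    (e f : Sym2 V) : Prop :=
  e ∈ G.edgeSet ∧ f ∈ G.edgeSet ∧ e ≠ f ∧ ∃ z ∈ D.arc e ∩ D.arc f, z ∉ range D.pos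

/-- `G` is k-planar: it has a simple drawing in which every edge has at most `k` crossings. -/
def IsKPlanar {V : Type} (k : ℕ) (G : SimpleGraph V) : Prop :=
  ∃ D : SimpleDrawing G, ∀ e ∈ G.edgeSet, {f | D.Crosses e f}.encard ≤ k

/-- `G` is r-quasiplanar: it has a simple drawing without `r` pairwise crossing edges. -/
def IsQuasiplanar {V : Type} (r : ℕ) (G : SimpleGraph V) : Prop :=
  ∃ D : SimpleDrawing G, ¬ ∃ F : Finset (Sym2 V), F.card = r ∧ (∀ e ∈ F, e ∈ G.edgeSet) ∧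
    ∀ e ∈ F, ∀ f ∈ F, e ≠ f → D.Crosses e f

open Pool.Agent.Lib.MP_1fca17_co in
/-- There is a sublinear function `f : ℕ → ℕ` (with `f k ≥ 2` for all `k`) such that, for every
`k`, every finite `k`-planar graph is `f(k)`-quasiplanar. -/
theorem result : ∃ f : ℕ → ℕ, (∀ k, 2 ≤ f k) ∧
    Tendsto (fun k : ℕ => (f k : ℝ) / k) atTop (nhds 0) ∧
    ∀ (k : ℕ) (V : Type) [Fintype V] (G : SimpleGraph V),
      IsKPlanar k G → IsQuasiplanar (f k) G := by
  have bridge : Top.StBridge := Top.Bridge32.stBridge (Top.stSplit Top.stSort) Top.stBall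
    Top.stCell Top.stMinor Top.stQuot Top.GridMap99.stGridMap
  obtain ⟨f, h1, h2, -, h4⟩ := Top.question_of F.full Top.stReal bridge
  refine ⟨f, h1, h2, fun k V _ G hG => ?_⟩
  have hG' : Top.IsKPlanar k G := by
    obtain ⟨D, hD⟩ := hG
    exact ⟨⟨D.pos, D.arc, D.pos_inj, D.isArc, D.avoid, D.once, D.proper, D.three⟩, hD⟩
  obtain ⟨D, hD⟩ := h4 k V G hG'
  exact ⟨⟨D.pos, D.arc, D.pos_inj, D.isArc, D.avoid, D.once, D.proper, D.three⟩, hD⟩

end Pool.Agent.Results.MP_1fca17_co.SublinearQuasiplanarity
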